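import Mathlib

set_option autoImplicit false
set_option linter.unusedSectionVars false

namespace Pool.Agent.R578.LD

open Finset

/-- A random subset of `ι`, defined on a finite weighted space. -/
structure RS (ι : Type) where
  Ω : Type
  fin : Fintype Ω
  m : Ω → ℝ
  X : Ω → Finset ι

attribute [instance] RS.fin

/-- expectation of a function of the random subset -/
noncomputable def RS.E {ι : Type} (R : RS ι) (F : Finset ι → ℝ) : ℝ := ∑ ω, R.m ω * F (R.X ω)

/-- `R` is a random subset (probability weights), the element `e` belongs to it with probability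
`p e`, and `D` is a dependency graph for the indicators: for disjoint `A`, `B` without `D`-edges
between them, the intersections with `A` and with `B` are independent. -/
structure Good {ι : Type} [DecidableEq ι] (D : ι → ι → Prop) (p : ι → ℝ) (R : RS ι) : Prop where
  nonneg : ∀ ω, 0 ≤ R.m ω
  total : ∑ ω, R.m ω = 1
  edge : ∀ e, R.E (fun S => if e ∈ S then 1 else 0) = p e
  indep : ∀ A B : Finset ι, Disjoint A B → (∀ a ∈ A, ∀ b ∈ B, ¬ D a b) →
    ∀ φ ψ : Finset ι → ℝ, R.E (fun S => φ (S ∩ A) * ψ (S ∩ B)) =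
      R.E (fun S => φ (S ∩ A)) * R.E (fun S => ψ (S ∩ B))

variable {ι : Type} [DecidableEq ι]

/-- union of independent copies -/
def RS.un (R R' : RS ι) : RS ι where
  Ω := R.Ω × R'.Ω
  fin := inferInstance
  m := fun w => R.m w.1 * R'.m w.2
  X := fun w => R.X w.1 ∪ R'.X w.2

lemma E_un (R R' : RS ι) (F : Finset ι → ℝ) :
    (R.un R').E F = R.E (fun S => R'.E (fun S' => F (S ∪ S'))) := by
  unfold RS.E RS.un
  simp only
  rw [Fintype.sum_prod_type]
  apply Finset.sum_congr rfl
  intro a _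
  rw [Finset.mul_sum]
  apply Finset.sum_congr rfl
  intro b _
  ring

lemma E_const (R : RS ι) (h : ∑ ω, R.m ω = 1) (c : ℝ) : R.E (fun _ => c) = c := by
  unfold RS.E
  rw [← Finset.sum_mul, h, one_mul]

lemma E_mul_const (R : RS ι) (F : Finset ι → ℝ) (c : ℝ) :
    R.E (fun S => F S * c) = R.E F * c := by
  unfold RS.E
  rw [Finset.sum_mul]
  apply Finset.sum_congr rfl
  intro b _
  ring

lemma E_sub (R : RS ι) (F F' : Finset ι → ℝ) :
    R.E (fun S => F S - F' S) = R.E F - R.E F' := by
  unfold RS.E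
  rw [← Finset.sum_sub_distrib]
  apply Finset.sum_congr rfl
  intro b _
  ring

lemma E_mono (R : RS ι) (h : ∀ ω, 0 ≤ R.m ω) (F F' : Finset ι → ℝ) (hF : ∀ S, F S ≤ F' S) :
    R.E F ≤ R.E F' := by
  unfold RS.E
  apply Finset.sum_le_sum
  intro b _
  exact mul_le_mul_of_nonneg_left (hF _) (h b)

lemma Good.un {D : ι → ι → Prop} {p p' : ι → ℝ} {R R' : RS ι} (h : Good D p R)
    (h' : Good D p' R') : Good D (fun e => 1 - (1 - p e) * (1 - p' e)) (R.un R') := by
  refine ⟨fun w => mul_nonneg (h.nonneg _) (h'.nonneg _), ?_, ?_, ?_⟩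
  · have := E_un R R' (fun _ => 1)
    have h1 : (R.un R').E (fun _ => 1) = ∑ ω, (R.un R').m ω := by
      unfold RS.E; simp
    rw [← h1, this]
    rw [show (fun S : Finset ι => R'.E (fun _ => 1)) = (fun _ => (1 : ℝ)) from
      funext fun S => E_const R' h'.total 1]
    exact E_const R h.total 1
  · intro e
    rw [E_un]
    have h1 : ∀ S : Finset ι, R'.E (fun S' => if e ∈ S ∪ S' then (1 : ℝ) else 0) =
        1 - (1 - (if e ∈ S then (1 : ℝ) else 0)) * (1 - p' e) := by
      intro S
      by_cases hS : e ∈ S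
      · simp only [mem_union, hS, true_or, if_true]
        rw [E_const R' h'.total]; ring
      · simp only [mem_union, hS, false_or, if_false]
        rw [h'.edge e]; ring
    rw [show (fun S : Finset ι => R'.E (fun S' => if e ∈ S ∪ S' then (1 : ℝ) else 0)) =
      (fun S => (1 : ℝ) - (1 - (if e ∈ S then (1 : ℝ) else 0)) * (1 - p' e)) from funext h1]
    rw [E_sub R (fun _ => 1) (fun S => (1 - (if e ∈ S then (1 : ℝ) else 0)) * (1 - p' e)),
      E_mul_const R (fun S => 1 - (if e ∈ S then (1 : ℝ) else 0)) (1 - p' e),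
      E_sub R (fun _ => 1) (fun S => if e ∈ S then (1 : ℝ) else 0), E_const R h.total, h.edge e]
  · intro A B hAB hD φ ψ
    have key : ∀ (C : Finset ι) (χ : Finset ι → ℝ),
        (R.un R').E (fun S => χ (S ∩ C)) =
        R.E (fun S => (fun U => R'.E (fun S' => χ (U ∪ (S' ∩ C)))) (S ∩ C)) := by
      intro C χ
      rw [E_un]
      simp only [Finset.union_inter_distrib_right]
    rw [E_un]
    have h1 : ∀ S : Finset ι, R'.E (fun S' => φ ((S ∪ S') ∩ A) * ψ ((S ∪ S') ∩ B)) =
        (fun U => R'.E (fun S' => φ (U ∪ (S' ∩ A)))) (S ∩ A) *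
        (fun U => R'.E (fun S' => ψ (U ∪ (S' ∩ B)))) (S ∩ B) := by
      intro S
      simp only [Finset.union_inter_distrib_right]
      exact h'.indep A B hAB hD (fun T => φ ((S ∩ A) ∪ T)) (fun T => ψ ((S ∩ B) ∪ T))
    rw [show (fun S : Finset ι => R'.E (fun S' => φ ((S ∪ S') ∩ A) * ψ ((S ∪ S') ∩ B))) =
      _ from funext h1]
    rw [h.indep A B hAB hD (fun U => R'.E (fun S' => φ (U ∪ (S' ∩ A))))
      (fun U => R'.E (fun S' => ψ (U ∪ (S' ∩ B)))), key A φ, key B ψ]

/-- the empty set -/
def RS.nil : RS ι where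
  Ω := Unit
  fin := inferInstance
  m := fun _ => 1
  X := fun _ => ∅

lemma E_nil (F : Finset ι → ℝ) : (RS.nil : RS ι).E F = F ∅ := by
  have : (RS.nil : RS ι).E F = ∑ _ω : Unit, (1 : ℝ) * F ∅ := rfl
  rw [this]; simp

lemma Good.nil (D : ι → ι → Prop) : Good D (fun _ => 0) (RS.nil : RS ι) := by
  refine ⟨fun _ => zero_le_one, ?_, fun e => by rw [E_nil]; simp, ?_⟩
  · have : ∑ ω, (RS.nil : RS ι).m ω = ∑ _ω : Unit, (1 : ℝ) := rfl
    rw [this]; simp
  intro A B _ _ φ ψ
  rw [E_nil, E_nil, E_nil]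

/-- the full set -/
def RS.full [Fintype ι] : RS ι where
  Ω := Unit
  fin := inferInstance
  m := fun _ => 1
  X := fun _ => univ

lemma E_full [Fintype ι] (F : Finset ι → ℝ) : (RS.full : RS ι).E F = F univ := by
  have : (RS.full : RS ι).E F = ∑ _ω : Unit, (1 : ℝ) * F univ := rfl
  rw [this]; simp

lemma Good.full [Fintype ι] (D : ι → ι → Prop) : Good D (fun _ => 1) (RS.full : RS ι) := by
  refine ⟨fun _ => zero_le_one, ?_, fun e => by rw [E_full]; simp, ?_⟩
  · have : ∑ ω, (RS.full : RS ι).m ω = ∑ _ω : Unit, (1 : ℝ) := rfl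
    rw [this]; simp
  intro A B _ _ φ ψ
  rw [E_full, E_full, E_full]

/-- the set {e} with probability q -/
def RS.single (e : ι) (q : ℝ) : RS ι where
  Ω := Bool
  fin := inferInstance
  m := fun b => if b then q else 1 - q
  X := fun b => if b then {e} else ∅

lemma E_single (e : ι) (q : ℝ) (F : Finset ι → ℝ) :
    (RS.single e q).E F = q * F {e} + (1 - q) * F ∅ := by
  have : (RS.single e q).E F = ∑ b : Bool, (if b then q else 1 - q) *
    F (if b then {e} else ∅) := rfl
  rw [this]; simp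

lemma Good.single (D : ι → ι → Prop) (e : ι) (q : ℝ) (h0 : 0 ≤ q) (h1 : q ≤ 1) :
    Good D (fun x => if x = e then q else 0) (RS.single e q) := by
  refine ⟨?_, ?_, ?_, ?_⟩
  · have : ∀ b : Bool, 0 ≤ (if b then q else 1 - q) := by
      intro b; split_ifs <;> linarith
    exact this
  · have : ∑ ω, (RS.single e q).m ω = ∑ b : Bool, (if b then q else 1 - q) := rfl
    rw [this]; simp
  · intro x
    rw [E_single]
    simp
  · intro A B hAB _ φ ψ
    rw [E_single, E_single, E_single]
    by_cases hA : e ∈ A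
    · have hB : e ∉ B := fun h => (Finset.disjoint_left.1 hAB hA) h
      have h3 : ({e} : Finset ι) ∩ B = ∅ := by
        rw [Finset.singleton_inter_of_notMem hB]
      rw [h3, Finset.empty_inter, Finset.empty_inter]
      ring
    · have h3 : ({e} : Finset ι) ∩ A = ∅ := by
        rw [Finset.singleton_inter_of_notMem hA]
      rw [h3, Finset.empty_inter, Finset.empty_inter]
      ring

/-- iterated union -/
def RS.pw (R : RS ι) : ℕ → RS ι
  | 0 => RS.nil
  | k + 1 => (RS.pw R k).un R

lemma Good.pw {D : ι → ι → Prop} {p : ℝ} {R : RS ι} (h : Good D (fun _ => p) R) (k : ℕ) :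
    Good D (fun _ => 1 - (1 - p) ^ k) (R.pw k) := by
  induction k with
  | zero => simpa [RS.pw] using Good.nil D
  | succ k ih =>
    have := ih.un h
    have e : (fun _ : ι => 1 - (1 - p) ^ (k + 1)) =
      (fun _ : ι => 1 - (1 - (1 - (1 - p) ^ k)) * (1 - p)) := by
      funext _; ring
    rw [e]
    exact this

lemma exists_er (D : ι → ι → Prop) (q : ℝ) (h0 : 0 ≤ q) (h1 : q ≤ 1) (s : Finset ι) :
    ∃ R : RS ι, Good D (fun x => if x ∈ s then q else 0) R := by
  induction s using Finset.induction_on with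
  | empty => exact ⟨RS.nil, by simpa using Good.nil D⟩
  | insert e s he ih =>
    obtain ⟨R, hR⟩ := ih
    refine ⟨R.un (RS.single e q), ?_⟩
    have := hR.un (Good.single D e q h0 h1)
    have e1 : (fun x : ι => if x ∈ insert e s then q else 0) =
      (fun x : ι => 1 - (1 - (if x ∈ s then q else 0)) * (1 - (if x = e then q else 0))) := by
      funext x
      by_cases hx : x = e
      · subst hx; simp [he]
      · simp [hx]
    rw [e1]
    exact this

/-- probability of a family -/
noncomputable def RS.Pr (R : RS ι) (U : Set (Finset ι)) : ℝ := by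
  classical exact R.E (fun S => if S ∈ U then 1 else 0)

lemma Pr_un {D : ι → ι → Prop} {p p' : ι → ℝ} {R R' : RS ι} (h : Good D p R)
    (h' : Good D p' R') (U : Set (Finset ι)) (hU : ∀ S T, S ⊆ T → S ∈ U → T ∈ U) :
    1 - (R.un R').Pr U ≤ (1 - R.Pr U) * (1 - R'.Pr U) := by
  classical
  unfold RS.Pr
  rw [E_un]
  set a := R'.E (fun S => if S ∈ U then (1 : ℝ) else 0) with ha
  have hle : ∀ S : Finset ι, (1 : ℝ) - (1 - (if S ∈ U then (1 : ℝ) else 0)) * (1 - a) ≤
      R'.E (fun S' => if S ∪ S' ∈ U then (1 : ℝ) else 0) := by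
    intro S
    by_cases hS : S ∈ U
    · have : (fun S' : Finset ι => if S ∪ S' ∈ U then (1 : ℝ) else 0) = fun _ => 1 := by
        funext S'
        rw [if_pos (hU S _ subset_union_left hS)]
      rw [this, E_const R' h'.total, if_pos hS]
      simp
    · rw [if_neg hS]
      have : a ≤ R'.E (fun S' => if S ∪ S' ∈ U then (1 : ℝ) else 0) := by
        apply E_mono R' h'.nonneg
        intro S'
        by_cases hS' : S' ∈ U
        · rw [if_pos hS', if_pos (hU S' _ subset_union_right hS')]
        · rw [if_neg hS']; split_ifs <;> norm_num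
      linarith
  have h2 := E_mono R h.nonneg _ _ hle
  rw [E_sub R (fun _ => 1) (fun S => (1 - (if S ∈ U then (1 : ℝ) else 0)) * (1 - a)),
      E_mul_const R (fun S => 1 - (if S ∈ U then (1 : ℝ) else 0)) (1 - a),
      E_sub R (fun _ => 1) (fun S => if S ∈ U then (1 : ℝ) else 0), E_const R h.total] at h2
  linarith

lemma Pr_nonneg {D : ι → ι → Prop} {p : ι → ℝ} {R : RS ι} (h : Good D p R)
    (U : Set (Finset ι)) : 0 ≤ R.Pr U := by
  classical
  unfold RS.Pr
  have := E_mono R h.nonneg (fun _ => 0) (fun S => if S ∈ U then (1 : ℝ) else 0)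
    (fun S => by split_ifs <;> norm_num)
  rwa [E_const R h.total] at this

lemma Pr_le_one {D : ι → ι → Prop} {p : ι → ℝ} {R : RS ι} (h : Good D p R)
    (U : Set (Finset ι)) : R.Pr U ≤ 1 := by
  classical
  unfold RS.Pr
  have := E_mono R h.nonneg (fun S => if S ∈ U then (1 : ℝ) else 0) (fun _ => 1)
    (fun S => by split_ifs <;> norm_num)
  rwa [E_const R h.total] at this

lemma Pr_pw {D : ι → ι → Prop} {p : ℝ} {R : RS ι} (h : Good D (fun _ => p) R)
    (U : Set (Finset ι)) (hU : ∀ S T, S ⊆ T → S ∈ U → T ∈ U) (k : ℕ) :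
    1 - (R.pw k).Pr U ≤ (1 - R.Pr U) ^ k := by
  induction k with
  | zero =>
    have := Pr_nonneg (h.pw 0) U
    simp only [pow_zero]
    linarith
  | succ k ih =>
    have h1 := Pr_un (h.pw k) h U hU
    have h2 : 0 ≤ 1 - R.Pr U := by have := Pr_le_one h U; linarith
    calc 1 - (R.pw (k + 1)).Pr U ≤ (1 - (R.pw k).Pr U) * (1 - R.Pr U) := h1
      _ ≤ (1 - R.Pr U) ^ k * (1 - R.Pr U) := mul_le_mul_of_nonneg_right ih h2
      _ = _ := by ring

lemma boost [Fintype ι] {D : ι → ι → Prop} {p0 p : ℝ} {R : RS ι} (h : Good D (fun _ => p0) R)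
    (hp : p0 ≤ p) (hp1 : p ≤ 1)
    (U : Set (Finset ι)) (hU : ∀ S T, S ⊆ T → S ∈ U → T ∈ U) :
    ∃ R' : RS ι, Good D (fun _ => p) R' ∧ R.Pr U ≤ R'.Pr U := by
  rcases eq_or_lt_of_le (hp.trans hp1) with h1 | h1
  · have : p = p0 := by linarith
    exact ⟨R, by rw [this]; exact h, le_refl _⟩
  · have hq0 : 0 ≤ (p - p0) / (1 - p0) := div_nonneg (by linarith) (by linarith)
    have hq1 : (p - p0) / (1 - p0) ≤ 1 := by
      rw [div_le_one (by linarith)]; linarith
    obtain ⟨Q, hQ⟩ := exists_er D ((p - p0) / (1 - p0)) hq0 hq1 univ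
    refine ⟨R.un Q, ?_, ?_⟩
    · have := h.un hQ
      have e1 : (fun _ : ι => p) = (fun x : ι => 1 - (1 - p0) *
          (1 - (if x ∈ (univ : Finset ι) then (p - p0) / (1 - p0) else 0))) := by
        funext x
        simp only [mem_univ, if_true]
        have : (1 - p0) ≠ 0 := by linarith
        field_simp
        ring
      rw [e1]
      exact this
    · have e1 := Pr_un h hQ U hU
      have e2 := Pr_nonneg hQ U
      have e3 : 0 ≤ 1 - R.Pr U := by have := Pr_le_one h U; linarith
      nlinarith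

end Pool.Agent.R578.LD
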