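import Mathlib
import Pool.Agent.R578.LD.Basic

set_option autoImplicit false
set_option linter.unusedSectionVars false

namespace Pool.Agent.R578.LD

open Finset Filter Topology

/-- `D` is the adjacency relation of a (simple) graph of maximum degree at most `d` -/
def DegLE {ι : Type} (D : ι → ι → Prop) (d : ℕ) : Prop :=
  (∀ a b, D a b → D b a) ∧ (∀ a, ¬ D a a) ∧ ∀ a, {b | D a b}.ncard ≤ d

/-- `R` is a `d`-locally dependent random set with all the element probabilities equal to `p` -/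
def Dep {ι : Type} [DecidableEq ι] (d : ℕ) (p : ℝ) (R : RS ι) : Prop :=
  ∃ D : ι → ι → Prop, DegLE D d ∧ Good D (fun _ => p) R

lemma degLE_empty {ι : Type} (d : ℕ) : DegLE (fun _ _ : ι => False) d := by
  refine ⟨fun _ _ h => h, fun _ h => h, fun a => ?_⟩
  simp

variable {ι : Type} [Fintype ι] [DecidableEq ι]

lemma Dep.prob {d : ℕ} {p : ℝ} {R : RS ι} (h : Dep d p R) (e : ι) : 0 ≤ p ∧ p ≤ 1 := by
  obtain ⟨D, -, hG⟩ := h
  have := hG.edge e
  constructor
  · rw [← this]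
    have := E_mono R hG.nonneg (fun _ => 0) (fun S => if e ∈ S then (1 : ℝ) else 0)
      (fun S => by split_ifs <;> norm_num)
    rwa [E_const R hG.total] at this
  · rw [← this]
    have := E_mono R hG.nonneg (fun S => if e ∈ S then (1 : ℝ) else 0) (fun _ => 1)
      (fun S => by split_ifs <;> norm_num)
    rwa [E_const R hG.total] at this

lemma Pr_le_card {d : ℕ} {p : ℝ} {R : RS ι} (h : Dep d p R) (U : Set (Finset ι))
    (hU : ∅ ∉ U) : R.Pr U ≤ Fintype.card ι * p := by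
  classical
  obtain ⟨D, -, hG⟩ := h
  have h1 : ∀ S : Finset ι, (if S ∈ U then (1 : ℝ) else 0) ≤
      ∑ e : ι, if e ∈ S then (1 : ℝ) else 0 := by
    intro S
    have h0 : ∀ e ∈ (univ : Finset ι), (0 : ℝ) ≤ if e ∈ S then (1 : ℝ) else 0 := by
      intro e _; split_ifs <;> norm_num
    by_cases hS : S ∈ U
    · have hne : S.Nonempty := by
        rw [Finset.nonempty_iff_ne_empty]
        rintro rfl
        exact hU hS
      obtain ⟨e, he⟩ := hne
      rw [if_pos hS]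
      have := Finset.single_le_sum h0 (mem_univ e)
      rwa [if_pos he] at this
    · rw [if_neg hS]
      exact Finset.sum_nonneg h0
  have h2 := E_mono R hG.nonneg _ _ h1
  have h3 : R.E (fun S => ∑ e : ι, if e ∈ S then (1 : ℝ) else 0) = Fintype.card ι * p := by
    have : ∀ e : ι, R.E (fun S => if e ∈ S then (1 : ℝ) else 0) = p := fun e => hG.edge e
    unfold RS.E at this ⊢
    simp only [Finset.mul_sum]
    rw [Finset.sum_comm]
    rw [Finset.sum_congr rfl (fun e _ => this e)]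
    simp
  rw [h3] at h2
  exact h2

/-- the set of edge probabilities for which some `d`-dependent random set is in `U` with
probability at least one half -/
def Sset (d : ℕ) (U : Set (Finset ι)) : Set ℝ := {q | ∃ R : RS ι, Dep d q R ∧ 1 / 2 ≤ R.Pr U}

noncomputable def Lth (d : ℕ) (U : Set (Finset ι)) : ℝ := sInf (Sset d U)

lemma one_mem (d : ℕ) (U : Set (Finset ι)) (h1 : univ ∈ U) : (1 : ℝ) ∈ Sset d U := by
  classical
  refine ⟨RS.full, ⟨_, degLE_empty d, Good.full _⟩, ?_⟩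
  unfold RS.Pr
  rw [E_full, if_pos h1]
  norm_num

lemma lower (d : ℕ) (U : Set (Finset ι)) (h0 : ∅ ∉ U) (h1 : univ ∈ U) (q : ℝ)
    (hq : q ∈ Sset d U) : 1 / (2 * (Fintype.card ι : ℝ)) ≤ q := by
  obtain ⟨R, hR, hP⟩ := hq
  have := Pr_le_card hR U h0
  have hpos : 0 < Fintype.card ι := by
    rcases Nat.eq_zero_or_pos (Fintype.card ι) with h | h
    · rw [h] at this
      simp at this
      linarith
    · exact h
  have hpos' : (0 : ℝ) < Fintype.card ι := by exact_mod_cast hpos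
  rw [div_le_iff₀ (by positivity)]
  nlinarith

lemma Lth_pos (d : ℕ) (U : Set (Finset ι)) (h0 : ∅ ∉ U) (h1 : univ ∈ U) : 0 < Lth d U := by
  have hne : (univ : Finset ι) ≠ ∅ := by
    intro h; rw [h] at h1; exact h0 h1
  have hpos : 0 < Fintype.card ι := by
    rw [← Finset.card_univ, Finset.card_pos, Finset.nonempty_iff_ne_empty]
    exact hne
  have hpos' : (0 : ℝ) < Fintype.card ι := by exact_mod_cast hpos
  have : 1 / (2 * (Fintype.card ι : ℝ)) ≤ Lth d U :=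
    le_csInf ⟨1, one_mem d U h1⟩ (fun q hq => lower d U h0 h1 q hq)
  have h2 : 0 < 1 / (2 * (Fintype.card ι : ℝ)) := by positivity
  linarith

/-- (i), one `n` -/
lemma small (d : ℕ) (U : Set (Finset ι)) (h0 : ∅ ∉ U) (h1 : univ ∈ U)
    (hU : ∀ S T, S ⊆ T → S ∈ U → T ∈ U) (K : ℕ) (p : ℝ) (hp0 : 0 ≤ p) (hp1 : p ≤ 1)
    (hK : K * p < Lth d U)
    (R : RS ι) (hR : Dep d p R) : 1 / 2 < (1 - R.Pr U) ^ K := by
  obtain ⟨D, hD, hG⟩ := hR
  have h2 := Pr_pw hG U hU K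
  have hq : 1 - (1 - p) ^ K ≤ K * p := by
    have := one_add_mul_le_pow (a := -p) (by linarith) K
    have e : (1 : ℝ) + -p = 1 - p := by ring
    rw [e] at this
    linarith
  have hnot : (1 - (1 - p) ^ K) ∉ Sset d U := by
    intro hmem
    have : Lth d U ≤ 1 - (1 - p) ^ K :=
      csInf_le ⟨1 / (2 * (Fintype.card ι : ℝ)), fun q hq => lower d U h0 h1 q hq⟩ hmem
    linarith
  have h3 : (R.pw K).Pr U < 1 / 2 := by
    by_contra hc
    exact hnot ⟨R.pw K, ⟨D, hD, hG.pw K⟩, by linarith⟩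
  linarith

/-- (iii), one `n` -/
lemma large (d : ℕ) (U : Set (Finset ι)) (h1 : univ ∈ U)
    (hU : ∀ S T, S ⊆ T → S ∈ U → T ∈ U) (K : ℕ) (hK0 : 0 < K) (p : ℝ) (hp1 : p ≤ 1)
    (hK : Lth d U < p / K) (hne : Nonempty ι) :
    ∃ R : RS ι, Dep d p R ∧ 1 - (1 / 2) ^ K ≤ R.Pr U := by
  obtain ⟨q, hq, hqp⟩ := exists_lt_of_csInf_lt ⟨1, one_mem d U h1⟩ hK
  obtain ⟨R, hR, hP⟩ := hq
  obtain ⟨e⟩ := hne
  obtain ⟨hq0, hq1⟩ := hR.prob e
  obtain ⟨D, hD, hG⟩ := hR
  have h2 := Pr_pw hG U hU K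
  have hK' : (0 : ℝ) < K := by exact_mod_cast hK0
  have hq : 1 - (1 - q) ^ K ≤ K * q := by
    have := one_add_mul_le_pow (a := -q) (by linarith) K
    have e : (1 : ℝ) + -q = 1 - q := by ring
    rw [e] at this
    linarith
  have hle : 1 - (1 - q) ^ K ≤ p := by
    rw [lt_div_iff₀ hK'] at hqp
    linarith
  obtain ⟨R', hR', hP'⟩ := boost (hG.pw K) hle hp1 U hU
  refine ⟨R', ⟨D, hD, hR'⟩, ?_⟩
  have h3 : (1 - R.Pr U) ^ K ≤ (1 / 2) ^ K := by
    apply pow_le_pow_left₀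
    · have := Pr_le_one hG U; linarith
    · linarith
  linarith

/-- an optimal choice -/
lemma choose_opt (d : ℕ) (U : Set (Finset ι)) (p : ℝ) (hp0 : 0 ≤ p) (hp1 : p ≤ 1) (δ : ℝ)
    (hδ : 0 < δ) : ∃ R : RS ι, Dep d p R ∧ ∀ R' : RS ι, Dep d p R' → R'.Pr U ≤ R.Pr U + δ := by
  have hne : {x : ℝ | ∃ R : RS ι, Dep d p R ∧ R.Pr U = x}.Nonempty := by
    obtain ⟨R, hR⟩ := exists_er (fun _ _ : ι => False) p hp0 hp1 univ
    refine ⟨R.Pr U, R, ⟨_, degLE_empty d, ?_⟩, rfl⟩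
    simpa using hR
  have hbd : BddAbove {x : ℝ | ∃ R : RS ι, Dep d p R ∧ R.Pr U = x} := by
    refine ⟨1, ?_⟩
    rintro x ⟨R, ⟨D, _, hG⟩, rfl⟩
    exact Pr_le_one hG U
  obtain ⟨x, ⟨R, hR, rfl⟩, hx⟩ := exists_lt_of_lt_csSup hne
    (show sSup {x : ℝ | ∃ R : RS ι, Dep d p R ∧ R.Pr U = x} - δ < _ by linarith)
  refine ⟨R, hR, fun R' hR' => ?_⟩
  have := le_csSup hbd ⟨R', hR', rfl⟩
  linarith

end Pool.Agent.R578.LD
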